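import Pool.Agent.Q138.PS.ZK

/-!
# Wagstaff numbers with a varying amplitude: prescribed patterns of primes along sparse exponents

For an integer `b ≥ 2`, real `t > 0` and `n ≥ 0` let `N b t n = ⌊t b ^ n⌋ + 1`. At `t = 1 / (b + 1)` and odd `n` this is the
generalised Wagstaff number `Q(b, n) = (b ^ n + 1) / (b + 1)`.

* There is an absolute `C` such that for every `b ≥ 2`, every sequence of exponents with `n_(i+1) ≥ C n_i` and every set `S` of
  indices, the set of the `t` in any given interval for which `N b t n_i` is prime exactly for the `i ∈ S` (`i` large) has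
  Hausdorff dimension `1`.
* For all bases at once: let `E_b`, `b ≥ 2`, be any infinite sets of exponents. The set of the `t > 0` such that for EVERY `b ≥ 2`
  both infinitely many of the `N b t n`, `n ∈ E_b`, are prime and infinitely many are not, is residual and has Hausdorff dimension
  `1` in every interval.
-/

set_option autoImplicit false

namespace Pool.Agent.Results.MP_ce8d0c_nt.ExceptionalAmplitudes

open Filter Topology MeasureTheory

/-- `⌊t b ^ n⌋ + 1` -/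
noncomputable def N (b : ℕ) (t : ℝ) (n : ℕ) : ℕ := ⌊t * (b : ℝ) ^ n⌋₊ + 1

theorem special (b : ℕ) (hb : 2 ≤ b) (n : ℕ) (hn : Odd n) : N b (1 / ((b : ℝ) + 1)) n * (b + 1) = b ^ n + 1 := by
  have hdvd : b + 1 ∣ b ^ n + 1 := by
    have := hn.nat_add_dvd_pow_add_pow b 1
    simpa using this
  obtain ⟨q, hq⟩ := hdvd
  have hq0 : 1 ≤ q := by
    rcases Nat.eq_zero_or_pos q with h | h
    · rw [h, mul_zero] at hq
      omega
    · exact h
  have hb1 : (0 : ℝ) < (b : ℝ) + 1 := by positivity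
  have hbr : (2 : ℝ) ≤ b := by exact_mod_cast hb
  have hqr : ((b : ℝ) ^ n + 1) = ((b : ℝ) + 1) * q := by exact_mod_cast hq
  have h1 : 1 / ((b : ℝ) + 1) * (b : ℝ) ^ n = q - 1 / ((b : ℝ) + 1) := by
    rw [show (b : ℝ) ^ n = ((b : ℝ) + 1) * q - 1 by linarith]
    field_simp
  have h2 : ⌊1 / ((b : ℝ) + 1) * (b : ℝ) ^ n⌋₊ = q - 1 := by
    rw [h1]
    have h3 : 1 / ((b : ℝ) + 1) ≤ 1 := by
      rw [div_le_one hb1]
      linarith
    have h4 : 0 < 1 / ((b : ℝ) + 1) := by positivity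
    have h5 : (1 : ℝ) ≤ q := by exact_mod_cast hq0
    rw [Nat.floor_eq_iff (by linarith), Nat.cast_sub hq0, Nat.cast_one]
    constructor <;> linarith
  unfold N
  rw [h2, Nat.sub_add_cancel hq0, hq, mul_comm]

/-- a sequence of bases and exponents with prescribed bases and very rapidly growing powers -/
theorem exists_seq (C : ℝ) (E : ℕ → Set ℕ) (hE : ∀ b, 2 ≤ b → (E b).Infinite) (β : ℕ → ℕ) (hβ : ∀ i, 2 ≤ β i) :
    ∃ m : ℕ → ℕ, (∀ i, m i ∈ E (β i)) ∧ (∀ i, ((β i : ℝ) ^ m i) ^ C ≤ (β (i + 1) : ℝ) ^ m (i + 1)) ∧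
      ∀ i : ℕ, (i : ℝ) ≤ (β i : ℝ) ^ m i := by
  have hex : ∀ (i : ℕ) (R : ℝ), ∃ m ∈ E (β i), R ≤ (β i : ℝ) ^ m := by
    intro i R
    have hb : (1 : ℝ) < β i := by
      have : (2 : ℝ) ≤ β i := by exact_mod_cast hβ i
      linarith
    obtain ⟨k, hk⟩ := pow_unbounded_of_one_lt R hb
    obtain ⟨m, hm, hkm⟩ := (hE (β i) (hβ i)).exists_gt k
    exact ⟨m, hm, hk.le.trans (pow_le_pow_right₀ hb.le hkm.le)⟩
  choose g hg1 hg2 using hex
  let m : ℕ → ℕ := fun i => Nat.rec (g 0 0) (fun i mi => g (i + 1) (max (((β i : ℝ) ^ mi) ^ C) ((i : ℝ) + 1))) i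
  have hm0 : m 0 = g 0 0 := rfl
  have hms : ∀ i, m (i + 1) = g (i + 1) (max (((β i : ℝ) ^ m i) ^ C) ((i : ℝ) + 1)) := fun i => rfl
  refine ⟨m, fun i => ?_, fun i => ?_, fun i => ?_⟩
  · cases i with
    | zero => rw [hm0]; exact hg1 _ _
    | succ i => rw [hms]; exact hg1 _ _
  · rw [hms]
    exact (le_max_left _ _).trans (hg2 _ _)
  · cases i with
    | zero => simp
    | succ i =>
      rw [hms]
      push_cast
      exact (le_max_right _ _).trans (hg2 _ _)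

/-- both infinitely many primes and infinitely many composite numbers -/
def Both (E : ℕ → Set ℕ) (t : ℝ) : Prop := ∀ b : ℕ, 2 ≤ b →
  {n : ℕ | n ∈ E b ∧ (N b t n).Prime}.Infinite ∧ {n : ℕ | n ∈ E b ∧ ¬ (N b t n).Prime}.Infinite

theorem not_prime_of_far {c x y : ℝ} (hy : 0 ≤ y) (hc : 1 ≤ c * x) (h : Pool.Agent.Q273.CG.Far (c * x) y) :
    ¬ (⌊y⌋₊ + 1).Prime := by
  intro hp
  have h1 := h _ hp
  have h2 := Nat.floor_le hy
  have h3 := Nat.lt_floor_add_one y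
  push_cast at h1
  rw [abs_of_nonneg (by linarith)] at h1
  linarith

/-- the record scale tends to infinity -/
theorem f_tendsto : Tendsto Pool.Agent.Q273.CG.f atTop atTop := by
  have hl := Real.tendsto_log_atTop
  have hl2 := hl.comp hl
  have hl3 := hl.comp hl2
  have hl4 := hl.comp hl3
  refine tendsto_atTop_mono' atTop ?_ hl4
  filter_upwards [hl.eventually_ge_atTop 1, hl2.eventually_ge_atTop 1, hl3.eventually_ge_atTop 1,
    hl4.eventually_ge_atTop 0] with x h1 h2 h3 h4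
  simp only [Function.comp] at h1 h2 h3 h4 ⊢
  unfold Pool.Agent.Q273.CG.f
  set a := Real.log x
  set b := Real.log a
  set c := Real.log b
  set d := Real.log c
  have hcb : c ≤ b := by
    have := Real.log_le_sub_one_of_pos (show 0 < b by linarith)
    linarith
  rw [le_div_iff₀ (by positivity)]
  have h5 : c ^ 2 ≤ b ^ 2 := pow_le_pow_left₀ (by linarith) hcb 2
  have h6 : d * c ^ 2 ≤ d * b ^ 2 := mul_le_mul_of_nonneg_left h5 h4
  have h7 : 0 ≤ d * b ^ 2 := by positivity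
  nlinarith

theorem dim_both (E : ℕ → Set ℕ) (hE : ∀ b, 2 ≤ b → (E b).Infinite) (u v : ℝ) (hu : 0 < u) (huv : u < v) :
    dimH {t : ℝ | u < t ∧ t < v ∧ Both E t} = 1 := by
  obtain ⟨C, hC, h⟩ := Pool.Agent.Q138.PS.Pat1.ceil_one
  obtain ⟨β, hβ⟩ : ∃ β : ℕ → ℕ, β = fun i => i.unpair.1 + 2 := ⟨_, rfl⟩
  have hβ2 : ∀ i, 2 ≤ β i := fun i => by rw [hβ]; exact Nat.le_add_left _ _
  obtain ⟨m, hm1, hm2, hm3⟩ := exists_seq C E hE β hβ2
  obtain ⟨x, hx⟩ : ∃ x : ℕ → ℝ, x = fun i => (β i : ℝ) ^ m i := ⟨_, rfl⟩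
  have hβr : ∀ i, (2 : ℝ) ≤ β i := fun i => by exact_mod_cast hβ2 i
  have hx0 : ∀ i, 0 < x i := fun i => by
    rw [hx]
    have := hβr i
    positivity
  have hxt : Tendsto x atTop atTop := tendsto_atTop_mono (fun i => by rw [hx]; exact hm3 i) tendsto_natCast_atTop_atTop
  have h1 := h x hx0 hxt (Eventually.of_forall fun i => by rw [hx]; exact hm2 i) {i : ℕ | Even i.unpair.2} u v hu huv
  have hfx : Tendsto (fun i => Pool.Agent.Q273.CG.f (x i)) atTop atTop := f_tendsto.comp hxt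
  refine le_antisymm ?_ ?_
  · calc dimH _ ≤ dimH (Set.univ : Set ℝ) := dimH_mono (Set.subset_univ _)
      _ = 1 := Real.dimH_univ
  rw [← h1]
  refine dimH_mono ?_
  rintro t ⟨h2, h3, c, hc, h4⟩
  refine ⟨h2, h3, ?_⟩
  have ht0 : 0 < t := hu.trans h2
  have h5 := h4.and ((hfx.const_mul_atTop hc).eventually_ge_atTop 1)
  have hlarge : ∀ b : ℕ, 2 ≤ b → ∀ k : ℕ, ∀ᶠ i : ℕ in atTop, β i = b → k < m i := by
    intro b hb k
    filter_upwards [hxt.eventually_gt_atTop ((b : ℝ) ^ k)] with i hi hbi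
    rw [hx] at hi
    simp only [hbi] at hi
    have hb1 : (1 : ℝ) < b := by
      have : (2 : ℝ) ≤ b := by exact_mod_cast hb
      linarith
    exact (pow_lt_pow_iff_right₀ hb1).1 hi
  have hfind : ∀ b : ℕ, 2 ≤ b → ∀ (r I : ℕ), ∃ i, I ≤ i ∧ β i = b ∧ i.unpair.2 = 2 * I + r := by
    intro b hb r I
    refine ⟨Nat.pair (b - 2) (2 * I + r), ?_, ?_, ?_⟩
    · exact le_trans (by omega) (Nat.right_le_pair (b - 2) (2 * I + r))
    · rw [hβ]
      simp only [Nat.unpair_pair]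
      omega
    · simp only [Nat.unpair_pair]
  intro b hb
  constructor
  · refine Set.infinite_of_forall_exists_gt fun k => ?_
    obtain ⟨I, hI⟩ := eventually_atTop.1 (h5.and (hlarge b hb k))
    obtain ⟨i, hi1, hi2, hi3⟩ := hfind b hb 0 I
    obtain ⟨⟨⟨h6, -⟩, -⟩, h7⟩ := hI i hi1
    refine ⟨m i, ⟨?_, ?_⟩, h7 hi2⟩
    · have := hm1 i
      rwa [hi2] at this
    · have h8 := h6 (by rw [Set.mem_ofPred_eq, hi3]; exact ⟨I, by ring⟩)
      rw [hx] at h8
      simp only [hi2] at h8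
      exact h8
  · refine Set.infinite_of_forall_exists_gt fun k => ?_
    obtain ⟨I, hI⟩ := eventually_atTop.1 (h5.and (hlarge b hb k))
    obtain ⟨i, hi1, hi2, hi3⟩ := hfind b hb 1 I
    obtain ⟨⟨⟨-, h6⟩, h9⟩, h7⟩ := hI i hi1
    refine ⟨m i, ⟨?_, ?_⟩, h7 hi2⟩
    · have := hm1 i
      rwa [hi2] at this
    · have h8 := h6 (by
        rw [Set.mem_ofPred_eq, hi3, Nat.not_even_iff_odd]
        exact ⟨I, rfl⟩)
      have h10 := not_prime_of_far (mul_nonneg ht0.le (hx0 i).le) h9 h8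
      rw [hx] at h10
      simp only [hi2] at h10
      exact h10

theorem pattern : ∃ C : ℝ, 1 < C ∧ ∀ b : ℕ, 2 ≤ b → ∀ n : ℕ → ℕ, 1 ≤ n 0 → (∀ i, C * n i ≤ n (i + 1)) →
    ∀ S : Set ℕ, ∀ u v : ℝ, 0 < u → u < v →
    dimH {t : ℝ | u < t ∧ t < v ∧ ∀ᶠ i in atTop, ((N b t (n i)).Prime ↔ i ∈ S)} = 1 := by
  obtain ⟨C, hC, h⟩ := Pool.Agent.Q138.PS.Pat1.ceil_one
  refine ⟨C, hC, fun b hb n hn0 hn S u v hu huv => ?_⟩
  have hbr : (2 : ℝ) ≤ b := by exact_mod_cast hb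
  have hb0 : (0 : ℝ) < b := by linarith
  have hni : ∀ i : ℕ, i + 1 ≤ n i := by
    intro i
    induction i with
    | zero => simpa using hn0
    | succ i ih =>
      have h1 := hn i
      have h2 : (1 : ℝ) ≤ n i := by exact_mod_cast (by omega : 1 ≤ n i)
      have h3 : (n i : ℝ) < n (i + 1) := by nlinarith
      have h4 : n i < n (i + 1) := by exact_mod_cast h3
      omega
  have hxt : Tendsto (fun i => (b : ℝ) ^ n i) atTop atTop := by
    refine (tendsto_pow_atTop_atTop_of_one_lt (by linarith : (1 : ℝ) < b)).comp ?_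
    exact tendsto_atTop_mono (fun i => (Nat.le_succ i).trans (hni i)) tendsto_id
  have h1 := h (fun i => (b : ℝ) ^ n i) (fun i => by positivity) hxt (Eventually.of_forall fun i => by
    rw [← Real.rpow_natCast, ← Real.rpow_natCast, ← Real.rpow_mul hb0.le]
    refine Real.rpow_le_rpow_of_exponent_le (by linarith) ?_
    rw [mul_comm]
    exact hn i) S u v hu huv
  have hfx : Tendsto (fun i => Pool.Agent.Q273.CG.f ((b : ℝ) ^ n i)) atTop atTop := f_tendsto.comp hxt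
  refine le_antisymm ?_ ?_
  · calc dimH _ ≤ dimH (Set.univ : Set ℝ) := dimH_mono (Set.subset_univ _)
      _ = 1 := Real.dimH_univ
  rw [← h1]
  refine dimH_mono ?_
  rintro t ⟨h2, h3, c, hc, h4⟩
  refine ⟨h2, h3, ?_⟩
  have ht0 : 0 < t := hu.trans h2
  filter_upwards [h4, (hfx.const_mul_atTop hc).eventually_ge_atTop 1] with i h5 h6
  constructor
  · intro h7
    by_contra h8
    exact not_prime_of_far (by positivity) h6 (h5.2 h8) h7
  · exact fun h7 => h5.1 h7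

/-- genericity of one property -/
theorem generic (P : ℕ → Prop) (E : ℕ → Set ℕ) (b k : ℕ) (hb : 2 ≤ b)
    (h : ∀ u v : ℝ, 0 < u → u < v → ∃ t, u < t ∧ t < v ∧ {n : ℕ | n ∈ E b ∧ P (N b t n)}.Infinite) :
    ∀ᶠ t in residual ℝ, 0 < t → ∃ n, k < n ∧ n ∈ E b ∧ P (N b t n) := by
  have hb0 : (0 : ℝ) < b := by exact_mod_cast (by omega : 0 < b)
  obtain ⟨V, hV⟩ : ∃ V : Set ℝ, V = ⋃ z ∈ {z : ℕ × ℕ | k < z.1 ∧ z.1 ∈ E b ∧ P (z.2 + 1)},
    Set.Ioo ((z.2 : ℝ) / (b : ℝ) ^ z.1) (((z.2 : ℝ) + 1) / (b : ℝ) ^ z.1) := ⟨_, rfl⟩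
  have hVo : IsOpen V := by
    rw [hV]
    exact isOpen_biUnion fun z _ => isOpen_Ioo
  have hd : Dense (V ∪ Set.Iio 0) := by
    intro x
    rw [Metric.mem_closure_iff]
    intro ε hε
    rcases lt_or_ge x 0 with hx | hx
    · exact ⟨x, Or.inr hx, by rw [dist_self]; exact hε⟩
    obtain ⟨t, h1, h2, h3⟩ := h (x + ε / 3) (x + ε / 2) (by positivity) (by linarith)
    obtain ⟨n, ⟨hnE, hnP⟩, hnk⟩ := h3.exists_gt k
    have hbn : (0 : ℝ) < (b : ℝ) ^ n := by positivity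
    have ht0 : 0 < t := by linarith
    have h4 := Nat.floor_le (mul_nonneg ht0.le hbn.le)
    have h5 := Nat.lt_floor_add_one (t * (b : ℝ) ^ n)
    obtain ⟨m, hm⟩ : ∃ m : ℕ, m = ⌊t * (b : ℝ) ^ n⌋₊ := ⟨_, rfl⟩
    rw [← hm] at h4 h5
    have h6 : (m : ℝ) / (b : ℝ) ^ n ≤ t := (div_le_iff₀ hbn).2 h4
    have h7 : t < ((m : ℝ) + 1) / (b : ℝ) ^ n := (lt_div_iff₀ hbn).2 h5
    obtain ⟨t', h8, h9⟩ := exists_between (lt_min h7 h2)
    have h10 := lt_min_iff.1 h9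
    refine ⟨t', Or.inl ?_, ?_⟩
    · rw [hV]
      refine Set.mem_biUnion (x := (n, m)) ⟨hnk, hnE, ?_⟩ ⟨lt_of_le_of_lt h6 h8, h10.1⟩
      rw [hm]
      exact hnP
    · rw [Real.dist_eq, abs_sub_lt_iff]
      constructor <;> linarith [h10.2]
  have hres := residual_of_dense_open (hVo.union isOpen_Iio) hd
  refine Filter.mem_of_superset hres ?_
  rintro t ht ht0
  rcases ht with ht | ht
  · rw [hV] at ht
    simp only [Set.mem_iUnion] at ht
    obtain ⟨z, ⟨hz1, hz2, hz3⟩, hz4, hz5⟩ := ht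
    refine ⟨z.1, hz1, hz2, ?_⟩
    have hbn : (0 : ℝ) < (b : ℝ) ^ z.1 := by positivity
    have h1 : ⌊t * (b : ℝ) ^ z.1⌋₊ = z.2 := by
      rw [Nat.floor_eq_iff (by positivity)]
      exact ⟨((div_lt_iff₀ hbn).1 hz4).le, (lt_div_iff₀ hbn).1 hz5⟩
    unfold N
    rw [h1]
    exact hz3
  · exact absurd ht0 (not_lt.2 (le_of_lt ht))

theorem residual_both (E : ℕ → Set ℕ) (hE : ∀ b, 2 ≤ b → (E b).Infinite) :
    {t : ℝ | 0 < t → Both E t} ∈ residual ℝ := by
  have hne : ∀ u v : ℝ, 0 < u → u < v → ∃ t, u < t ∧ t < v ∧ Both E t := by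
    intro u v hu huv
    have h1 := dim_both E hE u v hu huv
    by_contra h2
    have h3 : {t : ℝ | u < t ∧ t < v ∧ Both E t} = ∅ := by
      rw [Set.eq_empty_iff_forall_notMem]
      exact fun t ht => h2 ⟨t, ht⟩
    rw [h3, dimH_empty] at h1
    exact zero_ne_one h1
  have h1 : ∀ᶠ t in residual ℝ, ∀ b k : ℕ, 2 ≤ b → (0 < t → ∃ n, k < n ∧ n ∈ E b ∧ (N b t n).Prime) ∧
      (0 < t → ∃ n, k < n ∧ n ∈ E b ∧ ¬ (N b t n).Prime) := by
    rw [eventually_countable_forall]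
    intro b
    rw [eventually_countable_forall]
    intro k
    by_cases hb : 2 ≤ b
    · have g1 := generic (fun m => m.Prime) E b k hb (fun u v hu huv => by
        obtain ⟨t, h2, h3, h4⟩ := hne u v hu huv
        exact ⟨t, h2, h3, (h4 b hb).1⟩)
      have g2 := generic (fun m => ¬ m.Prime) E b k hb (fun u v hu huv => by
        obtain ⟨t, h2, h3, h4⟩ := hne u v hu huv
        exact ⟨t, h2, h3, (h4 b hb).2⟩)
      filter_upwards [g1, g2] with t h2 h3 _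
      exact ⟨h2, h3⟩
    · exact Eventually.of_forall fun t h2 => absurd h2 hb
  filter_upwards [h1] with t ht
  intro ht0 b hb
  constructor
  · refine Set.infinite_of_forall_exists_gt fun k => ?_
    obtain ⟨n, h2, h3, h4⟩ := (ht b k hb).1 ht0
    exact ⟨n, ⟨h3, h4⟩, h2⟩
  · refine Set.infinite_of_forall_exists_gt fun k => ?_
    obtain ⟨n, h2, h3, h4⟩ := (ht b k hb).2 ht0
    exact ⟨n, ⟨h3, h4⟩, h2⟩

/-- **Theorem.** See the text above. -/
theorem result :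
    (∀ b : ℕ, 2 ≤ b → ∀ n : ℕ, Odd n → N b (1 / ((b : ℝ) + 1)) n * (b + 1) = b ^ n + 1) ∧
    (∃ C : ℝ, 1 < C ∧ ∀ b : ℕ, 2 ≤ b → ∀ n : ℕ → ℕ, 1 ≤ n 0 → (∀ i, C * n i ≤ n (i + 1)) →
      ∀ S : Set ℕ, ∀ u v : ℝ, 0 < u → u < v →
      dimH {t : ℝ | u < t ∧ t < v ∧ ∀ᶠ i in atTop, ((N b t (n i)).Prime ↔ i ∈ S)} = 1) ∧
    (∀ E : ℕ → Set ℕ, (∀ b, 2 ≤ b → (E b).Infinite) →
      {t : ℝ | 0 < t → Both E t} ∈ residual ℝ ∧
      ∀ u v : ℝ, 0 < u → u < v → dimH {t : ℝ | u < t ∧ t < v ∧ Both E t} = 1) :=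
  ⟨special, pattern, fun E hE => ⟨residual_both E hE, dim_both E hE⟩⟩

end Pool.Agent.Results.MP_ce8d0c_nt.ExceptionalAmplitudes
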