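import Mathlib
import Pool.Agent.TH888.R.Base
import Pool.Agent.H447R2.ML.Spec
import Pool.Agent.H473R4.Count

set_option autoImplicit false

/-!
# Generalized Wagstaff numbers: the law in every fixed base for almost every amplitude

For an integer `b ≥ 2`, a real `β > 0` and a prime `p` let `W b β p` be the `p`-rough part (the
product, with multiplicity, of the prime factors larger than `p`) of `⌊β b ^ p⌋ + 1`.  At the
amplitude `β = 1 / (b + 1)` these are the numbers `(b ^ p + 1) / (b + 1)`.  For a set `S` let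
`M S b β n` be the number of primes `p ≤ n` in `S` with `W b β p` prime, and let `V S n` be the sum of
`log p / p` over the primes `p ≤ n` in `S`.  The base is fixed.

We prove that for almost every `β > 0`, simultaneously for all bases `b ≥ 2`, the number of primes
`p ≤ n` with `W b β p` prime is `(e ^ γ / log b) log n + O((log n) ^ (1/2) (log log n) ^ (5/2))`; that
for every set `S` and almost every `β > 0`, for all `b ≥ 2`, there are infinitely many such primes `p`
in `S` if and only if `V S n` is unbounded, and that in this case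
`M S b β n = (e ^ γ / log b) V S n + O((V L) ^ (1/2) (log (V L)) ^ 2)` with `V = V S n` and
`L = log log n`.
-/

namespace Pool.Agent.Results.MP_ce8d0c_nt.FixedBase

open Filter Topology MeasureTheory Asymptotics

/-- The product, with multiplicity, of the prime factors of `m` that are larger than `p`. -/
def roughPart (p m : ℕ) : ℕ := (m.primeFactorsList.filter (fun r => p < r)).prod

/-- The `p`-rough part of `⌊β b ^ p⌋ + 1`. -/
noncomputable def W (b : ℕ) (β : ℝ) (p : ℕ) : ℕ := roughPart p (⌊β * (b : ℝ) ^ p⌋₊ + 1)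

open Classical in
/-- The number of primes `p ≤ n` in the set `S` for which `W b β p` is prime. -/
noncomputable def M (S : Set ℕ) (b : ℕ) (β : ℝ) (n : ℕ) : ℕ :=
  ((Finset.range (n + 1)).filter (fun p => p.Prime ∧ p ∈ S ∧ (W b β p).Prime)).card

open Classical in
/-- The sum of `log p / p` over the primes `p ≤ n` in the set `S`. -/
noncomputable def V (S : Set ℕ) (n : ℕ) : ℝ :=
  ∑ p ∈ (Finset.range (n + 1)).filter (fun p => p.Prime ∧ p ∈ S), Real.log p / p

lemma V_eq (S : Set ℕ) (n : ℕ) : V S n = Pool.Agent.TH888.R.VS S n := by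
  classical
  unfold V Pool.Agent.TH888.R.VS
  rw [Finset.sum_filter]
  refine Finset.sum_congr rfl fun p _ => ?_
  by_cases h : p.Prime ∧ p ∈ S
  · rw [if_pos h, if_pos ⟨h.2, h.1⟩]
    rfl
  · rw [if_neg h, if_neg fun h1 => h ⟨h1.2, h1.1⟩]

lemma floor_succ {v : ℝ} (hv : 0 ≤ v) : ⌊v + 1⌋₊ = ⌊v⌋₊ + 1 := by
  exact_mod_cast Nat.floor_add_natCast hv 1

/-- The special amplitudes. -/
lemma special {b : ℕ} (hb : 2 ≤ b) {p : ℕ} (hp : p.Prime) (hp2 : p ≠ 2) (hpd : ¬ p ∣ b + 1) :
    W b (1 / ((b : ℝ) + 1)) p * (b + 1) = b ^ p + 1 := by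
  have hodd : Odd p := hp.odd_of_ne_two hp2
  obtain ⟨M, hM⟩ : b + 1 ∣ b ^ p + 1 := by
    have := hodd.nat_add_dvd_pow_add_pow b 1
    rwa [one_pow] at this
  have hMr : ((M : ℝ)) * (b + 1) = (b : ℝ) ^ p + 1 := by
    have : ((b : ℝ) ^ p + 1) = (((b ^ p + 1 : ℕ)) : ℝ) := by push_cast; ring
    rw [this, hM]
    push_cast; ring
  have hb0 : (0 : ℝ) < (b : ℝ) + 1 := by positivity
  have hb2 : (2 : ℝ) ≤ b := by exact_mod_cast hb
  have hM0 : 1 ≤ M := by
    rcases Nat.eq_zero_or_pos M with h | h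
    · rw [h] at hM
      simp at hM
    · exact h
  have hfl : ⌊1 / ((b : ℝ) + 1) * (b : ℝ) ^ p⌋₊ + 1 = M := by
    have h0 : ⌊1 / ((b : ℝ) + 1) * (b : ℝ) ^ p⌋₊ = M - 1 := by
      rw [Nat.floor_eq_iff (by positivity), Nat.cast_sub hM0, Nat.cast_one]
      have e : 1 / ((b : ℝ) + 1) * (b : ℝ) ^ p = M - 1 / ((b : ℝ) + 1) := by
        field_simp
        linarith
      rw [e]
      have h1 : 1 / ((b : ℝ) + 1) < 1 := by
        rw [div_lt_one hb0]; linarith
      have h2 : 0 < 1 / ((b : ℝ) + 1) := by positivity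
      constructor <;> linarith
    omega
  have hr := Pool.Agent.H447R2.ML.rough_quot (a := (b : ℤ)) (b := -1)
    (IsCoprime.neg_right isCoprime_one_right) (by omega) (by omega) hp
    (by
      intro h
      apply hpd
      have : ((p : ℕ) : ℤ) ∣ ((b + 1 : ℕ) : ℤ) := by push_cast; simpa using h
      exact_mod_cast this) (x := (M : ℝ)) (by
        push_cast
        rw [hodd.neg_one_pow]
        have hne : (b : ℝ) - -1 ≠ 0 := by linarith
        field_simp
        linarith)
  rw [Nat.floor_natCast] at hr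
  have hgeom : (∑ i ∈ Finset.range p, (b : ℤ) ^ i * (-1) ^ (p - 1 - i)) * ((b : ℤ) - -1) =
      (b : ℤ) ^ p - (-1) ^ p := (Commute.all (b : ℤ) (-1)).geom_sum₂_mul p
  rw [← hr, hodd.neg_one_pow] at hgeom
  unfold W
  rw [hfl]
  have h4 : ((roughPart p M : ℕ) : ℤ) * ((b : ℤ) + 1) = (b : ℤ) ^ p + 1 := by
    have h5 : (roughPart p M : ℤ) = (Pool.Agent.H305R2.roughPart p M : ℤ) := rfl
    rw [h5]
    linarith
  exact_mod_cast h4

lemma infinite_iff {b : ℕ} (hb : 2 ≤ b) :
    {n : ℕ | Odd n ∧ ((b ^ n + 1) / (b + 1)).Prime}.Infinite ↔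
      {p : ℕ | p.Prime ∧ (W b (1 / ((b : ℝ) + 1)) p).Prime}.Infinite := by
  have key : ∀ n : ℕ, b + 1 < n → ((Odd n ∧ ((b ^ n + 1) / (b + 1)).Prime) ↔
      (n.Prime ∧ (W b (1 / ((b : ℝ) + 1)) n).Prime)) := by
    intro n hn
    have h2 : n.Prime → (b ^ n + 1) / (b + 1) = W b (1 / ((b : ℝ) + 1)) n := by
      intro hp
      have hpd : ¬ n ∣ b + 1 := fun h => by
        have := Nat.le_of_dvd (by omega) h
        omega
      rw [← special hb hp (by omega) hpd, Nat.mul_div_cancel _ (by omega)]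
    constructor
    · rintro ⟨h3, h4⟩
      have hp := Pool.Agent.H473R4.wagstaff_prime_index hb h3 h4
      exact ⟨hp, by rw [← h2 hp]; exact h4⟩
    · rintro ⟨hp, h4⟩
      exact ⟨hp.odd_of_ne_two (by omega), by rw [h2 hp]; exact h4⟩
  constructor
  · intro h hf
    refine h ((hf.union (Set.finite_le_nat (b + 1))).subset fun n hn => ?_)
    by_cases hb1 : b + 1 < n
    · exact Or.inl ((key n hb1).1 hn)
    · exact Or.inr (not_lt.1 hb1)
  · intro h hf
    refine h ((hf.union (Set.finite_le_nat (b + 1))).subset fun n hn => ?_)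
    by_cases hb1 : b + 1 < n
    · exact Or.inl ((key n hb1).2 hn)
    · exact Or.inr (not_lt.1 hb1)

lemma W_eq {b : ℕ} {β : ℝ} (hβ : 0 < β) (p : ℕ) :
    W b β p = Pool.Agent.H305R2.roughPart p ⌊β * (b : ℝ) ^ p + (fun _ : ℕ => (1 : ℝ)) p⌋₊ := by
  have e := floor_succ (v := β * (b : ℝ) ^ p) (by positivity)
  unfold W
  simp only [e]
  rfl

lemma M_eq (S : Set ℕ) {b : ℕ} {β : ℝ} (hβ : 0 < β) (n : ℕ) :
    M S b β n = Pool.Agent.TH888.R.cS S
      (fun p => ⌊β * (b : ℝ) ^ p + (fun _ : ℕ => (1 : ℝ)) p⌋₊) n := by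
  classical
  unfold M Pool.Agent.TH888.R.cS
  simp only [W_eq hβ]

lemma pt (S : Set ℕ) : ∀ᵐ β : ℝ, 0 < β → ∀ b : ℕ, 2 ≤ b → Pool.Agent.TH888.R.Pt
      (fun p => ⌊β * (b : ℝ) ^ p + (fun _ : ℕ => (1 : ℝ)) p⌋₊)
      (Real.exp Real.eulerMascheroniConstant / Real.log b) S := by
  have h : ∀ b : ℕ, ∀ᵐ β : ℝ, 2 ≤ b → 0 < β → Pool.Agent.TH888.R.Pt
      (fun p => ⌊β * (b : ℝ) ^ p + (fun _ : ℕ => (1 : ℝ)) p⌋₊)
      (Real.exp Real.eulerMascheroniConstant / Real.log b) S := by
    intro b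
    by_cases hb : 2 ≤ b
    · have hbr : (1 : ℝ) < b := by exact_mod_cast (by omega : 1 < b)
      have hg : ∀ p : ℕ, |(fun _ : ℕ => (1 : ℝ)) p| ≤ (1 : ℝ) * (1 : ℝ) ^ p := by simp
      have h := Pool.Agent.TH888.R.pt_floor (α := (b : ℝ)) (κ := 1) (C := 1) (g := fun _ => 1)
        hbr (by norm_num) hbr hg
        (Pool.Agent.TH888.R.near_base (b := b) hb (by norm_num) hbr hg) S
      filter_upwards [h] with β hβ _ h0
      exact hβ h0
    · exact Eventually.of_forall fun β h1 => absurd h1 hb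
  filter_upwards [ae_all_iff.2 h] with β hβ h0 b hb
  exact hβ b hb h0

/-- At the amplitude `1 / (b + 1)` the values are the generalized Wagstaff numbers, and the question
for the base `b` is whether infinitely many of them are prime there.  For almost every amplitude and
all bases the law holds with a square root error term; for every set of primes the number of prime
values is finite or infinite according to the weight of the set, and in the second case it obeys the
corresponding law. -/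
theorem result :
    (∀ b : ℕ, 2 ≤ b → ∀ p : ℕ, p.Prime → p ≠ 2 → ¬ p ∣ b + 1 →
      W b (1 / ((b : ℝ) + 1)) p * (b + 1) = b ^ p + 1) ∧
    (∀ b : ℕ, 2 ≤ b → ({n : ℕ | Odd n ∧ ((b ^ n + 1) / (b + 1)).Prime}.Infinite ↔
      {p : ℕ | p.Prime ∧ (W b (1 / ((b : ℝ) + 1)) p).Prime}.Infinite)) ∧
    (∀ᵐ β : ℝ, 0 < β → ∀ b : ℕ, 2 ≤ b →
      (fun n : ℕ => (M Set.univ b β n : ℝ) -
        Real.exp Real.eulerMascheroniConstant / Real.log b * Real.log n) =O[atTop]
      (fun n : ℕ => Real.sqrt (Real.log n) * (Real.log (Real.log n)) ^ ((5 : ℝ) / 2))) ∧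
    (∀ S : Set ℕ, Tendsto (V S) atTop atTop → ∀ᵐ β : ℝ, 0 < β → ∀ b : ℕ, 2 ≤ b →
      (fun n : ℕ => (M S b β n : ℝ) -
        Real.exp Real.eulerMascheroniConstant / Real.log b * V S n) =O[atTop]
      (fun n : ℕ => Real.sqrt (V S n * Real.log (Real.log n)) *
        (Real.log (V S n * Real.log (Real.log n))) ^ 2)) ∧
    (∀ S : Set ℕ, ∀ᵐ β : ℝ, 0 < β → ∀ b : ℕ, 2 ≤ b →
      ({p : ℕ | p.Prime ∧ p ∈ S ∧ (W b β p).Prime}.Infinite ↔ Tendsto (V S) atTop atTop)) := by
  have hV : ∀ S, V S = Pool.Agent.TH888.R.VS S := fun S => funext fun n => V_eq S n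
  refine ⟨fun b hb p hp hp2 hpd => special hb hp hp2 hpd, fun b hb => infinite_iff hb, ?_,
    fun S hS => ?_, fun S => ?_⟩
  · filter_upwards [pt Set.univ] with β hβ h0 b hb
    obtain ⟨B, hB, h⟩ := (hβ h0 b hb).law Pool.Agent.TH888.R.VS_univ_tendsto
    simp only [M_eq _ h0]
    exact Pool.Agent.TH888.R.bigO_all hB h
  · rw [hV] at hS ⊢
    filter_upwards [pt S] with β hβ h0 b hb
    obtain ⟨B, hB, h⟩ := (hβ h0 b hb).law hS
    simp only [M_eq _ h0]
    exact Pool.Agent.TH888.R.bigO_set hB hS h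
  · rw [hV]
    filter_upwards [pt S] with β hβ h0 b hb
    simp only [W_eq h0]
    constructor
    · intro hi
      by_contra hn
      exact hi ((hβ h0 b hb).fin hn)
    · exact (hβ h0 b hb).inf

end Pool.Agent.Results.MP_ce8d0c_nt.FixedBase
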