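import Mathlib
import Pool.Agent.Q160.TA3
import Pool.Agent.W66.LU
import Pool.Agent.H473R4.Count

set_option autoImplicit false

/-!
# Generalized Wagstaff numbers: the law for the last digits in every base

For an integer `b ≥ 2`, a sequence `d` of digits in base `b` and a prime `p` let `W b d p` be the
`p`-rough part (the product, with multiplicity, of the prime factors larger than `p`) of the integer
`∑ i < p, d i * b ^ i` formed by the last `p` digits of the `b`-adic integer `... d 2 d 1 d 0`.  For
the digits `1, b - 1, 0, b - 1, 0, ...` of `1 / (b + 1)` these are the numbers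
`(b ^ p + 1) / (b + 1)`.  For a set `S` let `M S b d n` be the number of primes `p ≤ n` in `S` with
`W b d p` prime, and let `V S n` be the sum of `log p / p` over the primes `p ≤ n` in `S`.

Let the digits be independent and uniformly distributed (Haar measure on the `b`-adic integers).  We
prove that for almost every `d` with `d 0` prime to `b` (the `b`-adic units) the number of primes
`p ≤ n` with `W b d p` prime is `(e ^ γ / log b) log n + O((log n) ^ (1/2) (log log n) ^ (5/2))`, that
for every set `S` and almost every such `d` there are infinitely many such primes `p` in `S` if and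
only if `V S n` is unbounded, and that in this case
`M S b d n = (e ^ γ / log b) V S n + O((V L) ^ (1/2) (log (V L)) ^ 2)` with `V = V S n` and
`L = log log n`.
-/

namespace Pool.Agent.Results.MP_ce8d0c_nt.LastDigits

open Filter Topology MeasureTheory Asymptotics

/-- The product, with multiplicity, of the prime factors of `m` that are larger than `p`. -/
def roughPart (p m : ℕ) : ℕ := (m.primeFactorsList.filter (fun r => p < r)).prod

/-- The `p`-rough part of the integer with the last `p` digits `d (p - 1), ..., d 1, d 0` in base `b`. -/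
def W (b : ℕ) (d : ℕ → Fin b) (p : ℕ) : ℕ := roughPart p (∑ i ∈ Finset.range p, (d i : ℕ) * b ^ i)

open Classical in
/-- The number of primes `p ≤ n` in the set `S` for which `W b d p` is prime. -/
noncomputable def M (S : Set ℕ) (b : ℕ) (d : ℕ → Fin b) (n : ℕ) : ℕ :=
  ((Finset.range (n + 1)).filter (fun p => p.Prime ∧ p ∈ S ∧ (W b d p).Prime)).card

open Classical in
/-- The sum of `log p / p` over the primes `p ≤ n` in the set `S`. -/
noncomputable def V (S : Set ℕ) (n : ℕ) : ℝ :=
  ∑ p ∈ (Finset.range (n + 1)).filter (fun p => p.Prime ∧ p ∈ S), Real.log p / p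

/-- Independent uniformly distributed digits in base `b`. -/
noncomputable def digits (b : ℕ) [NeZero b] : Measure (ℕ → Fin b) :=
  Measure.infinitePi (fun _ : ℕ => ProbabilityTheory.uniformOn (Set.univ : Set (Fin b)))

/-- The digits of `1 / (b + 1)`. -/
def wagstaff (b : ℕ) (hb : 2 ≤ b) (i : ℕ) : Fin b :=
  if i = 0 then ⟨1, by omega⟩ else if i % 2 = 1 then ⟨b - 1, by omega⟩ else ⟨0, by omega⟩

lemma V_eq (S : Set ℕ) (n : ℕ) : V S n = Pool.Agent.TH888.R.VS S n := by
  classical
  unfold V Pool.Agent.TH888.R.VS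
  rw [Finset.sum_filter]
  refine Finset.sum_congr rfl fun p _ => ?_
  by_cases h : p.Prime ∧ p ∈ S
  · rw [if_pos h, if_pos ⟨h.2, h.1⟩]
    rfl
  · rw [if_neg h, if_neg fun h1 => h ⟨h1.2, h1.1⟩]

lemma wagstaff_sum {b : ℕ} (hb : 2 ≤ b) (k : ℕ) :
    (∑ i ∈ Finset.range (2 * k + 1), (wagstaff b hb i : ℕ) * b ^ i) * (b + 1) = b ^ (2 * k + 1) + 1 := by
  induction k with
  | zero => simp [wagstaff]
  | succ k ih =>
    have e : 2 * (k + 1) + 1 = (2 * k + 1) + 1 + 1 := by ring
    have h1 : ((wagstaff b hb (2 * k + 1) : Fin b) : ℕ) = b - 1 := by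
      unfold wagstaff
      rw [if_neg (by omega), if_pos (by omega)]
    have h2 : ((wagstaff b hb (2 * k + 1 + 1) : Fin b) : ℕ) = 0 := by
      unfold wagstaff
      rw [if_neg (by omega), if_neg (by omega)]
    rw [e, Finset.sum_range_succ, Finset.sum_range_succ, h1, h2, zero_mul, add_zero, add_mul, ih]
    obtain ⟨c, rfl⟩ := Nat.exists_eq_add_of_le' (show 1 ≤ b by omega)
    rw [Nat.add_sub_cancel]
    ring

/-- The special sequences. -/
lemma special {b : ℕ} (hb : 2 ≤ b) {p : ℕ} (hp : p.Prime) (hp2 : p ≠ 2) (hpd : ¬ p ∣ b + 1) :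
    W b (wagstaff b hb) p * (b + 1) = b ^ p + 1 := by
  obtain ⟨k, hk⟩ := hp.odd_of_ne_two hp2
  have h1 := wagstaff_sum hb k
  rw [← hk] at h1
  have h2 := Pool.Agent.W66L.rough_wagstaff hb hp hp2 hpd h1
  have h3 : W b (wagstaff b hb) p = ∑ i ∈ Finset.range p, (wagstaff b hb i : ℕ) * b ^ i := h2
  rw [h3, h1]

lemma infinite_iff {b : ℕ} (hb : 2 ≤ b) :
    {n : ℕ | Odd n ∧ ((b ^ n + 1) / (b + 1)).Prime}.Infinite ↔
      {p : ℕ | p.Prime ∧ (W b (wagstaff b hb) p).Prime}.Infinite := by
  have key : ∀ n : ℕ, b + 1 < n → ((Odd n ∧ ((b ^ n + 1) / (b + 1)).Prime) ↔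
      (n.Prime ∧ (W b (wagstaff b hb) n).Prime)) := by
    intro n hn
    have h2 : n.Prime → (b ^ n + 1) / (b + 1) = W b (wagstaff b hb) n := by
      intro hp
      have hpd : ¬ n ∣ b + 1 := fun h => by
        have := Nat.le_of_dvd (by omega) h
        omega
      rw [← special hb hp (by omega) hpd, Nat.mul_div_cancel _ (by omega)]
    constructor
    · rintro ⟨h3, h4⟩
      have hp := Pool.Agent.H473R4.wagstaff_prime_index hb h3 h4
      exact ⟨hp, by rw [← h2 hp]; exact h4⟩
    · rintro ⟨hp, h4⟩
      exact ⟨hp.odd_of_ne_two (by omega), by rw [h2 hp]; exact h4⟩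
  constructor
  · intro h hf
    refine h ((hf.union (Set.finite_le_nat (b + 1))).subset fun n hn => ?_)
    by_cases hb1 : b + 1 < n
    · exact Or.inl ((key n hb1).1 hn)
    · exact Or.inr (not_lt.1 hb1)
  · intro h hf
    refine h ((hf.union (Set.finite_le_nat (b + 1))).subset fun n hn => ?_)
    by_cases hb1 : b + 1 < n
    · exact Or.inl ((key n hb1).2 hn)
    · exact Or.inr (not_lt.1 hb1)

lemma M_eq (S : Set ℕ) (b : ℕ) (d : ℕ → Fin b) (n : ℕ) :
    M S b d n = Pool.Agent.TH888.R.cS S (fun p => Pool.Agent.W66L.dsum b p d) n := by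
  classical
  unfold M Pool.Agent.TH888.R.cS
  rfl

lemma pt {b : ℕ} [NeZero b] (hb : 2 ≤ b) (S : Set ℕ) : ∀ᵐ d ∂(digits b), Nat.Coprime (d 0) b →
      Pool.Agent.TH888.R.Pt (fun p => Pool.Agent.W66L.dsum b p d)
        (Real.exp Real.eulerMascheroniConstant / Real.log b) S := by
  have h := Pool.Agent.Q160.TA.pt_full (b := b) hb (Pool.Agent.W66L.full_digits b) S
  filter_upwards [h] with d hd hu
  have hc : (Pool.Agent.W66L.dsum b 1 d).Coprime b := by
    unfold Pool.Agent.W66L.dsum
    simpa using hu
  exact hd hc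

/-- The values at the digits of `1 / (b + 1)` are the generalized Wagstaff numbers, and the question
for the base `b` is whether infinitely many of them are prime.  For every base and almost every
sequence of digits with last digit prime to the base the law holds with a square root error term; for
every set of primes the number of prime values is finite or infinite according to the weight of the
set, and in the second case it obeys the corresponding law. -/
theorem result :
    (∀ (b : ℕ) (hb : 2 ≤ b) (p : ℕ), p.Prime → p ≠ 2 → ¬ p ∣ b + 1 →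
      W b (wagstaff b hb) p * (b + 1) = b ^ p + 1) ∧
    (∀ (b : ℕ) (hb : 2 ≤ b), ({n : ℕ | Odd n ∧ ((b ^ n + 1) / (b + 1)).Prime}.Infinite ↔
      {p : ℕ | p.Prime ∧ (W b (wagstaff b hb) p).Prime}.Infinite)) ∧
    (∀ (b : ℕ) [NeZero b], 2 ≤ b →
      (∀ᵐ d ∂(digits b), Nat.Coprime (d 0) b →
        (fun n : ℕ => (M Set.univ b d n : ℝ) -
          Real.exp Real.eulerMascheroniConstant / Real.log b * Real.log n) =O[atTop]
        (fun n : ℕ => Real.sqrt (Real.log n) * (Real.log (Real.log n)) ^ ((5 : ℝ) / 2))) ∧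
      (∀ S : Set ℕ, Tendsto (V S) atTop atTop → ∀ᵐ d ∂(digits b), Nat.Coprime (d 0) b →
        (fun n : ℕ => (M S b d n : ℝ) -
          Real.exp Real.eulerMascheroniConstant / Real.log b * V S n) =O[atTop]
        (fun n : ℕ => Real.sqrt (V S n * Real.log (Real.log n)) *
          (Real.log (V S n * Real.log (Real.log n))) ^ 2)) ∧
      (∀ S : Set ℕ, ∀ᵐ d ∂(digits b), Nat.Coprime (d 0) b →
        ({p : ℕ | p.Prime ∧ p ∈ S ∧ (W b d p).Prime}.Infinite ↔ Tendsto (V S) atTop atTop))) := by
  have hV : ∀ S, V S = Pool.Agent.TH888.R.VS S := fun S => funext fun n => V_eq S n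
  refine ⟨fun b hb p hp hp2 hpd => special hb hp hp2 hpd, fun b hb => infinite_iff hb,
    fun b _ hb => ⟨?_, fun S hS => ?_, fun S => ?_⟩⟩
  · filter_upwards [pt hb Set.univ] with d hd hu
    obtain ⟨B, hB, h⟩ := (hd hu).law Pool.Agent.TH888.R.VS_univ_tendsto
    simp only [M_eq]
    exact Pool.Agent.TH888.R.bigO_all hB h
  · rw [hV] at hS ⊢
    filter_upwards [pt hb S] with d hd hu
    obtain ⟨B, hB, h⟩ := (hd hu).law hS
    simp only [M_eq]
    exact Pool.Agent.TH888.R.bigO_set hB hS h
  · rw [hV]
    filter_upwards [pt hb S] with d hd hu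
    constructor
    · intro hi
      by_contra hn
      exact hi ((hd hu).fin hn)
    · exact (hd hu).inf

end Pool.Agent.Results.MP_ce8d0c_nt.LastDigits
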