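import Pool.Agent.Q217.SG.Unit

/-!
# Generalized Wagstaff numbers behave like primes for sparse integers exactly for the bases without
algebraic factorization

Let `b ≥ 2`, `n` odd and `Q(b, n) = (b ^ n + 1) / (b + 1)`.  We consider integers with few nonzero
(signed) digits in base `b`.

(1) Let `b` have no algebraic factorization and `x_1 ⋯ x_r = q Q(b, n)`, `r ≥ 2`, where
`x_1, …, x_r, q` are sums of terms `c b ^ α` (windows of digits), `K` terms in total. If the prime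
factors of `n` are larger than `(2 r) ^ (K / 2)` and `(K + 1) (2 r) ^ (K / 2) h < n`, where `h` is
the integral part of the logarithm to the base `b` of `b + 1` times the product of the sums of the
`|c|` over the terms of the `x_t` plus twice the corresponding sum for `q`, then `Q(b, n)` divides
one of the `x_t`.

(2) In particular this holds for `r = 2` if `x`, `y`, `q` have `k₁`, `k₂`, `l` nonzero signed digits,
`K = k₁ + k₂ + l`, `2 ^ K (K + 2) ^ 2 ≤ n` and if the prime factors of `n` are larger than `2 ^ K`.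

(3) The base `b` has no algebraic factorization if and only if for every `K` Euclid's lemma for
`Q(b, n)` holds for all `x`, `y`, `q` with at most `K` nonzero signed digits, for all odd `n > 1`
whose prime factors are sufficiently large.
-/

set_option autoImplicit false

namespace Pool.Agent.Results.MP_ce8d0c_nt.SparseEuclid

open Finset Q217.SG

/-- The generalized Wagstaff number `(b ^ n + 1) / (b + 1)`. -/
def Q (b n : ℕ) : ℤ := ((b : ℤ) ^ n + 1) / (b + 1)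

/-- `b` admits an algebraic factorization. -/
def Algebraic (b : ℕ) : Prop :=
  (∃ a m : ℕ, 2 ≤ a ∧ 3 ≤ m ∧ Odd m ∧ b = a ^ m) ∨ ∃ k : ℕ, 1 ≤ k ∧ b = 4 * k ^ 4

/-- `x` is a sum of `k` terms `c b ^ α` with `|c| < b`, that is `x` has at most `k` nonzero signed
digits in base `b`. -/
def HasDigits (b k : ℕ) (x : ℤ) : Prop :=
  ∃ (c : Fin k → ℤ) (α : Fin k → ℕ), (∀ i, |c i| < b) ∧ x = ∑ i, c i * (b : ℤ) ^ α i

/-- Euclid's lemma for `Q(b, n)` and integers with at most `K` nonzero signed digits. -/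
def Euclid (b n K : ℕ) : Prop :=
  ∀ (k₁ k₂ l : ℕ) (x y q : ℤ), k₁ ≤ K → k₂ ≤ K → l ≤ K → HasDigits b k₁ x → HasDigits b k₂ y →
    HasDigits b l q → x * y = q * Q b n → Q b n ∣ x ∨ Q b n ∣ y

theorem Q_mul (b : ℕ) {n : ℕ} (hn : Odd n) : ((b : ℤ) + 1) * Q b n = (b : ℤ) ^ n + 1 := by
  apply Int.mul_ediv_cancel'
  have := hn.add_dvd_pow_add_pow (b : ℤ) 1
  simpa using this

theorem Q_mul' (b : ℕ) {n : ℕ} (hn : Odd n) :
    ((b : ℤ) - (-1)) * Q b n = (b : ℤ) ^ n - (-1) ^ n := by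
  rw [hn.neg_one_pow]
  have := Q_mul b hn
  linarith

theorem good {b : ℕ} (hb : 2 ≤ b) (h : ¬ Algebraic b) : Good (b : ℤ) (-1) := by
  refine ⟨by omega, ?_, by norm_num, ?_, ?_⟩
  · exact (isCoprime_one_right).neg_right
  · rintro p hp ⟨u, v, hu, hv⟩
    apply h
    left
    have hodd : Odd p := by
      rcases hp.eq_two_or_odd' with h2 | h2
      · subst h2
        nlinarith [sq_nonneg v]
      · exact h2
    have hu0 : 0 < u := by
      by_contra hcon
      push Not at hcon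
      have := hodd.pow_nonpos_iff.2 hcon
      omega
    have h3 : 3 ≤ p := by
      have := hp.two_le
      rcases hodd with ⟨j, hj⟩
      omega
    refine ⟨u.natAbs, p, ?_, h3, hodd, ?_⟩
    · by_contra hcon
      have : u = 1 := by omega
      rw [this, one_pow] at hu
      omega
    · have h4 : ((u.natAbs ^ p : ℕ) : ℤ) = b := by
        push_cast
        rw [abs_of_pos hu0, hu]
      exact_mod_cast h4.symm
  · rintro ⟨f, hf⟩
    apply h
    right
    have h1 : 4 * (b : ℤ) = f ^ 4 := by linarith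
    have h2 : (2 : ℤ) ∣ f := by
      have : (2 : ℤ) ∣ f ^ 4 := ⟨2 * b, by rw [← h1]; ring⟩
      exact Int.prime_two.dvd_of_dvd_pow this
    obtain ⟨g, rfl⟩ := h2
    have h3 : (b : ℤ) = 4 * g ^ 4 := by linarith [show (2 * g) ^ 4 = 16 * g ^ 4 by ring]
    refine ⟨g.natAbs, ?_, ?_⟩
    · by_contra hcon
      have : g = 0 := by omega
      rw [this] at h3
      norm_num at h3
      omega
    · have h4 : ((4 * g.natAbs ^ 4 : ℕ) : ℤ) = b := by
        push_cast
        rw [h3]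
        congr 1
        exact Even.pow_abs (by decide) g
      exact_mod_cast h4.symm

theorem part1 {b n r l : ℕ} (hb : 2 ≤ b) (h : ¬ Algebraic b) (hn : Odd n) (hr : 2 ≤ r)
    (k : Fin r → ℕ) (c : ∀ t, Fin (k t) → ℤ) (α : ∀ t, Fin (k t) → ℕ) (d : Fin l → ℤ)
    (β : Fin l → ℕ)
    (hcop : ∀ p : ℕ, p.Prime → p ∣ n → Real.sqrt (2 * r) ^ (∑ t, k t + l) < p)
    (hprod : ∏ t, ∑ i, c t i * (b : ℤ) ^ α t i = (∑ j, d j * (b : ℤ) ^ β j) * Q b n)
    (hbig : ((∑ t, k t + l + 1 : ℕ) : ℝ) * Real.sqrt (2 * r) ^ (∑ t, k t + l) *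
      Nat.log b ((b + 1) * ∏ t, ∑ i, (c t i).natAbs + 2 * ∑ j, (d j).natAbs) < n) :
    ∃ t, Q b n ∣ ∑ i, c t i * (b : ℤ) ^ α t i := by
  refine euclid_unit (b := (b : ℤ)) (ε := -1) (Or.inr rfl) (good hb h) (n := n) hn.pos hr c α d β
    hcop (Q_mul' b hn) hprod ?_
  have e1 : ((b : ℤ) - (-1)).natAbs = b + 1 := by omega
  have e2 : (b : ℤ).natAbs = b := rfl
  rw [e1, e2]
  exact hbig

theorem part2 {b n k₁ k₂ l : ℕ} (hb : 2 ≤ b) (h : ¬ Algebraic b) (hn : Odd n) {x y q : ℤ}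
    (hx : HasDigits b k₁ x) (hy : HasDigits b k₂ y) (hq : HasDigits b l q)
    (hcop : ∀ p : ℕ, p.Prime → p ∣ n → 2 ^ (k₁ + k₂ + l) < p)
    (hbig : 2 ^ (k₁ + k₂ + l) * (k₁ + k₂ + l + 2) ^ 2 ≤ n) (hxy : x * y = q * Q b n) :
    Q b n ∣ x ∨ Q b n ∣ y := by
  obtain ⟨c₁, α₁, hc₁, rfl⟩ := hx
  obtain ⟨c₂, α₂, hc₂, rfl⟩ := hy
  obtain ⟨d, β, hd, rfl⟩ := hq
  refine euclid_unit_two (b := (b : ℤ)) (ε := -1) (Or.inr rfl) (good hb h) (n := n) hn.pos
    c₁ α₁ c₂ α₂ d β hcop (Q_mul' b hn) hxy ?_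
  have e1 : ((b : ℤ) - (-1)).natAbs = b + 1 := by omega
  have e2 : (b : ℤ).natAbs = b := rfl
  rw [e1, e2]
  have h1 := log_digits (b := b) hb (sum_digits_le c₁ hc₁) (sum_digits_le c₂ hc₂)
    (sum_digits_le d hd)
  generalize hK : k₁ + k₂ + l = K at *
  calc (K + 1) * 2 ^ K * Nat.log b ((b + 1) * ((∑ i, (c₁ i).natAbs) * ∑ i, (c₂ i).natAbs) +
        2 * ∑ j, (d j).natAbs) ≤ (K + 1) * 2 ^ K * (K + 3) := Nat.mul_le_mul_left _ h1
    _ = 2 ^ K * ((K + 1) * (K + 3)) := by ring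
    _ < 2 ^ K * (K + 2) ^ 2 := by
        apply Nat.mul_lt_mul_of_pos_left _ (by positivity)
        have : (K + 2) ^ 2 = (K + 1) * (K + 3) + 1 := by ring
        omega
    _ ≤ n := hbig

theorem part3 {b : ℕ} (hb : 2 ≤ b) (h : ¬ Algebraic b) (K : ℕ) :
    ∃ N₀ : ℕ, ∀ n : ℕ, Odd n → 1 < n → (∀ p : ℕ, p.Prime → p ∣ n → N₀ ≤ p) → Euclid b n K := by
  refine ⟨2 ^ (3 * K) * (3 * K + 2) ^ 2 + 1, ?_⟩
  intro n hn hn1 hp k₁ k₂ l x y q h₁ h₂ h₃ hx hy hq hxy
  have hpow : 2 ^ (k₁ + k₂ + l) ≤ 2 ^ (3 * K) := Nat.pow_le_pow_right (by norm_num) (by omega)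
  have hle : 2 ^ (k₁ + k₂ + l) * (k₁ + k₂ + l + 2) ^ 2 ≤ 2 ^ (3 * K) * (3 * K + 2) ^ 2 :=
    Nat.mul_le_mul hpow (Nat.pow_le_pow_left (by omega) 2)
  refine part2 hb h hn hx hy hq ?_ ?_ hxy
  · intro p hpp hpn
    have h4 := hp p hpp hpn
    have h5 : 2 ^ (3 * K) * 1 ≤ 2 ^ (3 * K) * (3 * K + 2) ^ 2 :=
      Nat.mul_le_mul_left _ (Nat.one_le_iff_ne_zero.2 (by positivity))
    omega
  · have h4 := hp n.minFac (Nat.minFac_prime (by omega)) (Nat.minFac_dvd n)
    have h5 := Nat.minFac_le (show 0 < n by omega)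
    omega

/-- the violation for `b = a ^ m`, `m` odd -/
theorem violation_pow {b a m n : ℕ} (ha : 2 ≤ a) (hm : 3 ≤ m) (hmo : Odd m) (hba : b = a ^ m)
    (hn : Odd n) (hnm : m < n) : ¬ Euclid b n m := by
  intro hE
  have ha0 : 0 < a := by omega
  have hb2 : 2 ≤ b := by
    rw [hba]
    calc 2 ≤ a := ha
      _ = a ^ 1 := (pow_one a).symm
      _ ≤ a ^ m := Nat.pow_le_pow_right ha0 (by omega)
  let x : ℤ := (a : ℤ) ^ n + 1
  let y : ℤ := ∑ j ∈ range m, ((a : ℤ) ^ n) ^ j * (-1) ^ (m - 1 - j)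
  -- digits of powers of `a`
  have hdig : ∀ j : ℕ, (a : ℤ) ^ j = (a : ℤ) ^ (j % m) * (b : ℤ) ^ (j / m) := by
    intro j
    rw [hba]
    push_cast
    rw [← pow_mul, ← pow_add, Nat.mod_add_div]
  have hlt : ∀ j : ℕ, |(a : ℤ) ^ (j % m)| < b := by
    intro j
    rw [abs_of_nonneg (by positivity), hba]
    push_cast
    exact pow_lt_pow_right₀ (by exact_mod_cast (by omega : 1 < a)) (Nat.mod_lt _ (by omega))
  have hx : HasDigits b 2 x := by
    refine ⟨![(a : ℤ) ^ (n % m), 1], ![n / m, 0], ?_, ?_⟩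
    · intro i
      fin_cases i
      · exact hlt n
      · change |(1 : ℤ)| < b
        rw [abs_one]
        omega
    · rw [Fin.sum_univ_two]
      simp only [x, Matrix.cons_val_zero, Matrix.cons_val_one, Matrix.cons_val_fin_one, pow_zero,
        mul_one]
      rw [← hdig n]
  have hy : HasDigits b m y := by
    refine ⟨fun j => (-1) ^ (m - 1 - (j : ℕ)) * (a : ℤ) ^ ((n * (j : ℕ)) % m),
      fun j => (n * (j : ℕ)) / m, ?_, ?_⟩
    · intro j
      rw [abs_mul, abs_pow, abs_neg, abs_one, one_pow, one_mul]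
      exact hlt _
    · rw [Fin.sum_univ_eq_sum_range (fun j => (-1) ^ (m - 1 - j) * (a : ℤ) ^ ((n * j) % m) *
        (b : ℤ) ^ ((n * j) / m)) m]
      apply Finset.sum_congr rfl
      intro j _
      rw [← pow_mul, hdig (n * j)]
      ring
  have hq : HasDigits b 2 ((b : ℤ) + 1) := by
    refine ⟨![1, 1], ![1, 0], ?_, ?_⟩
    · intro i
      fin_cases i <;> change |(1 : ℤ)| < b <;> rw [abs_one] <;> omega
    · rw [Fin.sum_univ_two]
      simp
  have hyx : y * x = (b : ℤ) ^ n + 1 := by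
    have h1 := (Commute.all ((a : ℤ) ^ n) (-1)).geom_sum₂_mul m
    rw [hmo.neg_one_pow, sub_neg_eq_add, sub_neg_eq_add] at h1
    simp only [x, y]
    rw [h1, hba]
    push_cast
    rw [← pow_mul, ← pow_mul, mul_comm]
  have hxy : x * y = ((b : ℤ) + 1) * Q b n := by rw [Q_mul b hn, ← hyx]; ring
  have hA : (4 : ℤ) ≤ (a : ℤ) ^ n := by
    calc (4 : ℤ) = 2 ^ 2 := by norm_num
      _ ≤ 2 ^ n := pow_le_pow_right₀ (by norm_num) (by omega)
      _ ≤ (a : ℤ) ^ n := pow_le_pow_left₀ (by norm_num) (by exact_mod_cast ha) n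
  have hbA : (b : ℤ) + 1 ≤ (a : ℤ) ^ n := by
    have h1 : (a : ℤ) ^ (m + 1) ≤ (a : ℤ) ^ n :=
      pow_le_pow_right₀ (by exact_mod_cast (by omega : 1 ≤ a)) hnm
    have h2 : (b : ℤ) = (a : ℤ) ^ m := by rw [hba]; push_cast; rfl
    have h3 : (2 : ℤ) ≤ a := by exact_mod_cast ha
    have h4 : (2 : ℤ) ≤ b := by exact_mod_cast hb2
    rw [pow_succ, ← h2] at h1
    nlinarith
  have hxb : (b : ℤ) + 1 < x := by simp only [x]; linarith
  have hx0 : 0 < x := by simp only [x]; positivity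
  have hy0 : 0 < y := by
    by_contra hcon
    push Not at hcon
    have : (0 : ℤ) < (b : ℤ) ^ n + 1 := by positivity
    nlinarith
  have hb1 : (0 : ℤ) < (b : ℤ) + 1 := by positivity
  have hyb : (b : ℤ) + 1 < y := by
    by_contra hcon
    push Not at hcon
    have h1 : (b : ℤ) ^ n + 1 ≤ ((b : ℤ) + 1) * x := by
      rw [← hyx]
      exact mul_le_mul_of_nonneg_right hcon hx0.le
    have h2 : ((b : ℤ) + 1) * x ≤ (a : ℤ) ^ n * ((a : ℤ) ^ n + 1) :=
      mul_le_mul hbA le_rfl hx0.le (by positivity)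
    have h3 : (b : ℤ) ^ n = ((a : ℤ) ^ n) ^ m := by
      rw [hba]; push_cast; rw [← pow_mul, ← pow_mul, mul_comm]
    have h4 : ((a : ℤ) ^ n) ^ 3 ≤ ((a : ℤ) ^ n) ^ m := pow_le_pow_right₀ (by linarith) hm
    generalize (a : ℤ) ^ n = A at *
    have h5 : A ^ 3 = A * (A * A) := by ring
    have h6 : 4 * (A * A) ≤ A * (A * A) := mul_le_mul_of_nonneg_right hA (mul_self_nonneg A)
    have h7 : 4 * A ≤ A * A := mul_le_mul_of_nonneg_right hA (by linarith)
    have h8 : A * (A + 1) = A * A + A := by ring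
    linarith
  have hQ0 : 0 < Q b n := by
    by_contra hcon
    push Not at hcon
    nlinarith
  rcases hE 2 m 2 x y _ (by omega) le_rfl (by omega) hx hy hq hxy with h1 | h1
  · have h2 := Int.le_of_dvd hx0 h1
    nlinarith
  · have h2 := Int.le_of_dvd hy0 h1
    nlinarith

/-- the violation for `b = 4 k ^ 4` -/
theorem violation_four {b k n : ℕ} (hk : 1 ≤ k) (hbk : b = 4 * k ^ 4) (hn : Odd n)
    (hn7 : 7 ≤ n) : ¬ Euclid b n 3 := by
  intro hE
  obtain ⟨s, hs⟩ := hn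
  have hk4 : 1 ≤ k ^ 4 := Nat.one_le_pow _ _ hk
  have hb4 : 4 ≤ b := by omega
  have hkZ : (1 : ℤ) ≤ k := by exact_mod_cast hk
  have hbZ : (b : ℤ) = 4 * (k : ℤ) ^ 4 := by rw [hbk]; push_cast; rfl
  let T : ℤ := (2 * (k : ℤ) ^ 2) ^ s
  let W : ℤ := 2 * k * T
  let V : ℤ := 2 * (k : ℤ) ^ 2 * T ^ 2
  have hbT : (b : ℤ) ^ s = T ^ 2 := by
    simp only [T]
    rw [hbZ, ← pow_mul, mul_comm s 2, pow_mul]
    congr 1
    ring
  have hV : V = 2 * (k : ℤ) ^ 2 * (b : ℤ) ^ s := by rw [hbT]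
  have hFF : (V + 1 + W) * (V + 1 - W) = (b : ℤ) ^ n + 1 := by
    rw [hs, pow_succ, mul_comm 2 s, pow_mul, hbT, hbZ]
    simp only [V, W]
    ring
  obtain ⟨j, c, hc, hW⟩ : ∃ (j : ℕ) (c : ℤ), |c| < b ∧ W = c * (b : ℤ) ^ j := by
    rcases Nat.even_or_odd' s with ⟨u, hu | hu⟩
    · refine ⟨u, 2 * k, ?_, ?_⟩
      · rw [abs_of_nonneg (by positivity), hbZ]
        nlinarith [pow_le_pow_left₀ (by norm_num) hkZ 3, pow_pos (by linarith : (0:ℤ) < k) 3]
      · simp only [W, T]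
        rw [hu, pow_mul, hbZ]
        congr 2
        ring
    · by_cases hk1 : k = 1
      · refine ⟨u + 1, 1, ?_, ?_⟩
        · rw [abs_one]; omega
        · simp only [W, T]
          rw [hu, hbZ, hk1]
          rw [pow_succ, pow_mul]
          norm_num
          ring
      · refine ⟨u, 4 * (k : ℤ) ^ 3, ?_, ?_⟩
        · have hk2 : (2 : ℤ) ≤ k := by exact_mod_cast (by omega : 2 ≤ k)
          rw [abs_of_nonneg (by positivity), hbZ]
          have : 0 < (k : ℤ) ^ 3 := by positivity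
          nlinarith
        · simp only [W, T]
          rw [hu, pow_succ, pow_mul, hbZ]
          have e : ((2 * (k : ℤ) ^ 2) ^ 2) = 4 * (k : ℤ) ^ 4 := by ring
          rw [e]
          ring
  have hcV : |2 * (k : ℤ) ^ 2| < (b : ℤ) := by
    rw [abs_of_nonneg (by positivity), hbZ]
    have : 1 ≤ (k : ℤ) ^ 2 := one_le_pow₀ hkZ
    nlinarith
  have hform : ∀ ε : ℤ, |ε| = 1 → HasDigits b 3 (V + 1 + ε * W) := by
    intro ε hε
    refine ⟨![2 * (k : ℤ) ^ 2, 1, ε * c], ![s, 0, j], ?_, ?_⟩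
    · intro i
      fin_cases i
      · exact hcV
      · change |(1 : ℤ)| < b
        rw [abs_one]; omega
      · change |ε * c| < b
        rw [abs_mul, hε, one_mul]
        exact hc
    · rw [Fin.sum_univ_three]
      change _ = 2 * (k : ℤ) ^ 2 * (b : ℤ) ^ s + 1 * (b : ℤ) ^ 0 + ε * c * (b : ℤ) ^ j
      rw [mul_assoc ε, ← hW, ← hV, pow_zero, one_mul]
  have hq : HasDigits b 2 ((b : ℤ) + 1) := by
    refine ⟨![1, 1], ![1, 0], ?_, ?_⟩
    · intro i
      fin_cases i <;> change |(1 : ℤ)| < b <;> rw [abs_one] <;> omega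
    · rw [Fin.sum_univ_two]
      simp
  have hT : 8 * (k : ℤ) ^ 6 ≤ T := by
    simp only [T]
    calc 8 * (k : ℤ) ^ 6 = (2 * (k : ℤ) ^ 2) ^ 3 := by ring
      _ ≤ (2 * (k : ℤ) ^ 2) ^ s := by
        apply pow_le_pow_right₀ _ (by omega)
        have : 1 ≤ (k : ℤ) ^ 2 := one_le_pow₀ hkZ
        linarith
  have hQ : ((b : ℤ) + 1) * Q b n = (b : ℤ) ^ n + 1 := Q_mul b ⟨s, hs⟩
  have hk6 : (k : ℤ) ^ 4 ≤ (k : ℤ) ^ 6 := pow_le_pow_right₀ hkZ (by norm_num)
  have hk44 : (1 : ℤ) ≤ (k : ℤ) ^ 4 := one_le_pow₀ hkZ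
  have hT8 : 8 ≤ T := by linarith
  have hF2 : (b : ℤ) + 1 < V + 1 - W := by
    have h1 : V + 1 - W = 2 * (k * T) * (k * T - 1) + 1 := by simp only [V, W]; ring
    have h2 : T ≤ k * T := by nlinarith
    rw [h1, hbZ]
    have h3 : 4 * (k : ℤ) ^ 4 < T := by linarith
    nlinarith
  have hW0 : 0 ≤ W := by positivity
  have hb1 : (0 : ℤ) < (b : ℤ) + 1 := by positivity
  have hQ0 : 0 < Q b n := by
    by_contra hcon
    push Not at hcon
    have : (0 : ℤ) < (b : ℤ) ^ n + 1 := by positivity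
    nlinarith
  have hxq : (V + 1 + W) * (V + 1 - W) = ((b : ℤ) + 1) * Q b n := by rw [hFF, hQ]
  have hF1Q : V + 1 + W < Q b n := by
    by_contra hcon
    push Not at hcon
    nlinarith
  have hxq' : (V + 1 + 1 * W) * (V + 1 + (-1) * W) = ((b : ℤ) + 1) * Q b n := by
    rw [← hxq]; ring
  rcases hE 3 3 2 (V + 1 + 1 * W) (V + 1 + (-1) * W) ((b : ℤ) + 1) le_rfl le_rfl (by norm_num)
    (hform 1 (by simp)) (hform (-1) (by simp)) hq hxq' with h1 | h1
  · have h2 := Int.le_of_dvd (by linarith) h1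
    linarith
  · have h2 := Int.le_of_dvd (by linarith) h1
    linarith

/-- **Generalized Wagstaff numbers behave like primes for sparse integers exactly for the bases
without algebraic factorization.**
(1) Euclid's lemma for products `x_1 ⋯ x_r = q Q(b, n)` with windows of digits and an explicit bound.
(2) The case of two factors with `k₁`, `k₂` digits and a quotient with `l` digits.
(3) `b` admits no algebraic factorization if and only if for every `K` Euclid's lemma holds for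
`Q(b, n)` and integers with at most `K` digits, for all odd `n > 1` all of whose prime factors are
sufficiently large. -/
theorem result :
    (∀ b n r l : ℕ, 2 ≤ b → ¬ Algebraic b → Odd n → 2 ≤ r → ∀ (k : Fin r → ℕ)
      (c : ∀ t, Fin (k t) → ℤ) (α : ∀ t, Fin (k t) → ℕ) (d : Fin l → ℤ) (β : Fin l → ℕ),
      (∀ p : ℕ, p.Prime → p ∣ n → Real.sqrt (2 * r) ^ (∑ t, k t + l) < p) →
      ∏ t, ∑ i, c t i * (b : ℤ) ^ α t i = (∑ j, d j * (b : ℤ) ^ β j) * Q b n →
      ((∑ t, k t + l + 1 : ℕ) : ℝ) * Real.sqrt (2 * r) ^ (∑ t, k t + l) *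
        Nat.log b ((b + 1) * ∏ t, ∑ i, (c t i).natAbs + 2 * ∑ j, (d j).natAbs) < n →
      ∃ t, Q b n ∣ ∑ i, c t i * (b : ℤ) ^ α t i) ∧
    (∀ (b n k₁ k₂ l : ℕ) (x y q : ℤ), 2 ≤ b → ¬ Algebraic b → Odd n → HasDigits b k₁ x →
      HasDigits b k₂ y → HasDigits b l q →
      (∀ p : ℕ, p.Prime → p ∣ n → 2 ^ (k₁ + k₂ + l) < p) →
      2 ^ (k₁ + k₂ + l) * (k₁ + k₂ + l + 2) ^ 2 ≤ n → x * y = q * Q b n →
      Q b n ∣ x ∨ Q b n ∣ y) ∧
    (∀ b : ℕ, 2 ≤ b → (¬ Algebraic b ↔ ∀ K : ℕ, ∃ N₀ : ℕ, ∀ n : ℕ, Odd n → 1 < n →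
      (∀ p : ℕ, p.Prime → p ∣ n → N₀ ≤ p) → Euclid b n K)) := by
  refine ⟨fun b n r l hb h hn hr k c α d β hcop hprod hbig =>
    part1 hb h hn hr k c α d β hcop hprod hbig,
    fun b n k₁ k₂ l x y q hb h hn hx hy hq hcop hbig hxy =>
      part2 hb h hn hx hy hq hcop hbig hxy, ?_⟩
  intro b hb
  constructor
  · intro h K
    exact part3 hb h K
  · intro hE h
    rcases h with ⟨a, m, ha, hm, hmo, hba⟩ | ⟨k, hk, hbk⟩
    · obtain ⟨N₀, hN₀⟩ := hE m
      obtain ⟨p, hp, hpp⟩ := Nat.exists_infinite_primes (N₀ + m + 3)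
      refine violation_pow ha hm hmo hba (hpp.odd_of_ne_two (by omega)) (by omega)
        (hN₀ p (hpp.odd_of_ne_two (by omega)) hpp.one_lt ?_)
      intro q hq hqp
      rw [(Nat.prime_dvd_prime_iff_eq hq hpp).1 hqp]
      omega
    · obtain ⟨N₀, hN₀⟩ := hE 3
      obtain ⟨p, hp, hpp⟩ := Nat.exists_infinite_primes (N₀ + 7)
      refine violation_four hk hbk (hpp.odd_of_ne_two (by omega)) (by omega)
        (hN₀ p (hpp.odd_of_ne_two (by omega)) hpp.one_lt ?_)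
      intro q hq hqp
      rw [(Nat.prime_dvd_prime_iff_eq hq hpp).1 hqp]
      omega

end Pool.Agent.Results.MP_ce8d0c_nt.SparseEuclid
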